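import Mathlib
import Pool.Agent.Helper84.Kos.Goals3

/-! Packet Ab: nontrivial finitely generated torsion free commutative groups map onto `ℤ`. -/

set_option autoImplicit false

namespace Pool.Agent.Helper22.Kos

open Pool.Agent.Helper84.Kos

theorem ab_comm (Q : Type) [CommGroup Q] (hFG : Group.FG Q)
    (htf : ∀ (x : Q) (n : ℕ), n ≠ 0 → x ^ n = 1 → x = 1) [Nontrivial Q] :
    ∃ f : Q →* Multiplicative ℤ, Function.Surjective f := by
  have h1 : IsMulTorsionFree Q := by
    constructor
    intro n hn x y hxy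
    have h2 : (x * y⁻¹) ^ n = 1 := by
      have h3 : x ^ n = y ^ n := hxy
      rw [mul_pow, h3, inv_pow, mul_inv_cancel]
    have h4 := htf _ n hn h2
    exact mul_inv_eq_one.1 h4
  have h2 : AddGroup.FG (Additive Q) := by
    rw [AddGroup.fg_iff_addMonoid_fg, ← Monoid.fg_iff_add_fg, ← Group.fg_iff_monoid_fg]
    exact hFG
  have h3 : Module.Finite ℤ (Additive Q) := Module.Finite.iff_addGroup_fg.2 h2
  have h4 : Module.Free ℤ (Additive Q) := inferInstance
  let b := Module.Free.chooseBasis ℤ (Additive Q)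
  have h5 : Nonempty (Module.Free.ChooseBasisIndex ℤ (Additive Q)) := b.index_nonempty
  obtain ⟨i⟩ := h5
  let g : Additive Q →ₗ[ℤ] ℤ := b.coord i
  refine ⟨AddMonoidHom.toMultiplicativeRight g.toAddMonoidHom, fun z => ?_⟩
  refine ⟨((Multiplicative.toAdd z) • b i).toMul, ?_⟩
  show Multiplicative.ofAdd (g ((Multiplicative.toAdd z) • b i)) = z
  rw [map_smul]
  simp [g]

theorem stmtAb : StmtAb := by
  intro Q _ hcomm hFG htf _
  let _ : CommGroup Q := { (inferInstance : Group Q) with mul_comm := hcomm }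
  exact ab_comm Q hFG htf

end Pool.Agent.Helper22.Kos
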