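import Mathlib
import Pool.Agent.Helper84.Kos.Goals2

/-! Packet G1c: conjugation by the exponential of a nilpotent element. -/

set_option autoImplicit false

namespace Pool.Agent.Helper22.Kos

open Pool.Agent.Helper84.Kos
open LinearMap

variable {R : Type} [Ring R] [Algebra ℚ R]

theorem exp_mulLeft {a : R} (ha : IsNilpotent a) (w : R) :
    IsNilpotent.exp (mulLeft ℚ a) w = IsNilpotent.exp a * w := by
  obtain ⟨k, hk⟩ := ha
  have h1 : (mulLeft ℚ a) ^ k = 0 := by
    rw [pow_mulLeft, hk, mulLeft_zero_eq_zero]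
  rw [IsNilpotent.exp_eq_sum h1, IsNilpotent.exp_eq_sum hk, Finset.sum_mul, LinearMap.sum_apply]
  refine Finset.sum_congr rfl (fun i _ => ?_)
  rw [LinearMap.smul_apply, pow_mulLeft, mulLeft_apply, smul_mul_assoc]

theorem exp_mulRight {a : R} (ha : IsNilpotent a) (w : R) :
    IsNilpotent.exp (mulRight ℚ a) w = w * IsNilpotent.exp a := by
  obtain ⟨k, hk⟩ := ha
  have h1 : (mulRight ℚ a) ^ k = 0 := by
    rw [pow_mulRight, hk, mulRight_zero_eq_zero]
  rw [IsNilpotent.exp_eq_sum h1, IsNilpotent.exp_eq_sum hk, Finset.mul_sum, LinearMap.sum_apply]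
  refine Finset.sum_congr rfl (fun i _ => ?_)
  rw [LinearMap.smul_apply, pow_mulRight, mulRight_apply, mul_smul_comm]

theorem stmtG1c : StmtG1c := by
  intro R _ _ l hl W W' hWW hW w hw
  have hL : IsNilpotent (mulLeft ℚ (-l)) := by
    rw [isNilpotent_mulLeft_iff]
    exact hl.neg
  have hR : IsNilpotent (mulRight ℚ l) := by
    rw [isNilpotent_mulRight_iff]
    exact hl
  have hc : Commute (mulLeft ℚ (-l)) (mulRight ℚ l) := commute_mulLeft_right _ _
  have h1 := IsNilpotent.exp_add_of_commute hc hL hR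
  have h2 : IsNilpotent.exp (-l) * w * IsNilpotent.exp l =
      IsNilpotent.exp (mulLeft ℚ (-l) + mulRight ℚ l) w := by
    rw [h1, Module.End.mul_apply, exp_mulRight hl, exp_mulLeft hl.neg, mul_assoc]
  rw [h2]
  have h3 : ∀ n : ℕ, ∀ w ∈ W, ((mulLeft ℚ (-l) + mulRight ℚ l) ^ (n + 1)) w ∈ W' := by
    intro n
    induction n with
    | zero =>
      intro w hw
      rw [zero_add, pow_one, LinearMap.add_apply, mulLeft_apply, mulRight_apply]
      have h4 := W'.neg_mem (hW w hw)
      rwa [neg_sub, sub_eq_neg_add, ← neg_mul] at h4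
    | succ n ih =>
      intro w hw
      rw [pow_succ, Module.End.mul_apply]
      refine ih _ (hWW ?_)
      rw [LinearMap.add_apply, mulLeft_apply, mulRight_apply]
      have h4 := W'.neg_mem (hW w hw)
      rwa [neg_sub, sub_eq_neg_add, ← neg_mul] at h4
  obtain ⟨k, hk⟩ := hc.isNilpotent_add hL hR
  have hk2 : (mulLeft ℚ (-l) + mulRight ℚ l) ^ (k + 1) = 0 := by
    rw [pow_succ, hk, zero_mul]
  rw [IsNilpotent.exp_eq_sum hk2, Finset.sum_range_succ', LinearMap.add_apply]
  have h5 : (((Nat.factorial 0 : ℕ) : ℚ)⁻¹ • (mulLeft ℚ (-l) + mulRight ℚ l) ^ 0) w = w := by simp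
  rw [h5, add_sub_cancel_right, LinearMap.sum_apply]
  refine Submodule.sum_mem _ (fun i _ => ?_)
  rw [LinearMap.smul_apply]
  exact W'.smul_mem _ (h3 i w hw)

end Pool.Agent.Helper22.Kos
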